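import Mathlib

/-! MP_fa04ef_co: the inequality a_n^{1,2,3}(321) <= a_n^{1,2,3}(231) is FALSE (for n = 752).
Words are lists of naturals (one-line notation, 0-indexed): `g w i` is the i-th letter.
Every part: prove `theorem t_XX : S_XX` in your own folder, import this file. -/

namespace Pool.Agent.X170.PC

def g (w : List ℕ) (i : ℕ) : ℕ := w.getD i 0

/-- permutation word all of whose cycles have length at most 3 -/
def Good (w : List ℕ) : Prop :=
  w.Nodup ∧ (∀ a ∈ w, a < w.length) ∧
    ∀ i < w.length, g w (g w i) = i ∨ g w (g w (g w i)) = i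

def Av321 (w : List ℕ) : Prop :=
  ∀ i j k, i < j → j < k → k < w.length → ¬ (g w k < g w j ∧ g w j < g w i)

def Av231 (w : List ℕ) : Prop :=
  ∀ i j k, i < j → j < k → k < w.length → ¬ (g w k < g w i ∧ g w i < g w j)

/-- 321-avoiding words -/
def A (n : ℕ) : Set (List ℕ) := {w | w.length = n ∧ Good w ∧ Av321 w}
/-- 231-avoiding words -/
def B (n : ℕ) : Set (List ℕ) := {w | w.length = n ∧ Good w ∧ Av231 w}
/-- 231-avoiding words that start with the maximum -/
def C (n : ℕ) : Set (List ℕ) := {w | w ∈ B n ∧ g w 0 = n - 1}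
/-- indecomposable 321-avoiding words: no proper prefix is a permutation of 0..j-1 -/
def D (n : ℕ) : Set (List ℕ) := {w | w ∈ A n ∧ ∀ j, 0 < j → j < n → ∃ i < j, j ≤ g w i}

/-- FIN: words of length n with letters < n: finite set (List of fixed length over Fin). -/
def S_FIN : Prop := ∀ n : ℕ, {w : List ℕ | w.length = n ∧ ∀ a ∈ w, a < w.length}.Finite

/-- U1: let j be the position of the maximal letter n-1 of w in B n. 231-avoidance: letters before
position j are smaller than letters after it, so take j w is a word in B j, and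
(drop j w) minus j is in C (n-j) (cycles stay inside both blocks). With k+1 = n-j the map
w -> (k, (drop j w).map (- j), take j w) is injective into the disjoint union. -/
def S_U1 : Prop := ∀ n : ℕ, 1 ≤ n →
  (B n).ncard ≤ ∑ k ∈ Finset.range n, (C (k + 1)).ncard * (B (n - (k + 1))).ncard

/-- U2 (helper170 does it) -/
def S_U2 : Prop := (C 1).ncard ≤ 1 ∧ (C 2).ncard ≤ 1 ∧ (C 3).ncard ≤ 2 ∧
  ∀ k : ℕ, 4 ≤ k → (C k).ncard + 7 ≤ 2 * (C (k - 3)).ncard + 2 * k

/-- L1: for b in D (k+1) and v in A (n-(k+1)) the word b ++ v.map (+ (k+1)) is in A n, and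
(k, b, v) is determined by the word: k+1 is the least j > 0 such that all of the first j letters
are < j. -/
def S_L1 : Prop := ∀ n : ℕ,
  ∑ k ∈ Finset.range n, (D (k + 1)).ncard * (A (n - (k + 1))).ncard ≤ (A n).ncard

/-- L2 (data, kernel computation; K = 16). Encode words base 16 in Nat literals (17591 words in
all, file data by helper170), check each word by a linear algorithm, sortedness for distinctness. -/
def iv : List ℕ := [1, 1, 2, 1, 4, 8, 10, 29, 56, 98, 240, 482, 938, 2170, 4420, 9131]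
def S_L2 : Prop := ∀ k < 16, iv.getD k 0 ≤ (D (k + 1)).ncard

def Cyc {n : ℕ} (π : Equiv.Perm (Fin n)) : Prop := ∀ i, Function.minimalPeriod π i ∈ ({1, 2, 3} : Set ℕ)
def P321 {n : ℕ} (π : Equiv.Perm (Fin n)) : Prop := ∀ i j k : Fin n, i < j → j < k → ¬ (π k < π j ∧ π j < π i)
def P231 {n : ℕ} (π : Equiv.Perm (Fin n)) : Prop := ∀ i j k : Fin n, i < j → j < k → ¬ (π k < π i ∧ π i < π j)

/-- BR1: each word w in A n gives a permutation of Fin n (injectively). -/
def S_BR1 : Prop := ∀ n : ℕ, (A n).ncard ≤ Nat.card {π : Equiv.Perm (Fin n) // P321 π ∧ Cyc π}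
/-- BR2: each permutation gives the word List.ofFn (fun i => (π i : ℕ)) (injectively). -/
def S_BR2 : Prop := ∀ n : ℕ, Nat.card {π : Equiv.Perm (Fin n) // P231 π ∧ Cyc π} ≤ (B n).ncard

/-- NUM: pure numbers. Upper sequence: c 1 = 1, c 2 = 1, c 3 = 2, c k = 2 c (k-3) + 2k - 7,
u n <= sum c k u (n-k); lower sequence l n >= sum_{k<=16} iv k * l (n-k). At n = 752 the lower bound
is larger than the upper bound (computed: first crossing n = 752). Prove by monotone induction
and a kernel evaluation of both recursions with lists (keep the lists of values reversed). -/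
def S_NUM : Prop := ∀ a b c d : ℕ → ℕ,
  a 0 = 1 → b 0 = 1 →
  (∀ n, 1 ≤ n → b n ≤ ∑ k ∈ Finset.range n, c (k + 1) * b (n - (k + 1))) →
  (c 1 ≤ 1 ∧ c 2 ≤ 1 ∧ c 3 ≤ 2 ∧ ∀ k : ℕ, 4 ≤ k → c k + 7 ≤ 2 * c (k - 3) + 2 * k) →
  (∀ n, ∑ k ∈ Finset.range n, d (k + 1) * a (n - (k + 1)) ≤ a n) →
  (∀ k < 16, iv.getD k 0 ≤ d (k + 1)) →
  b 752 < a 752

end Pool.Agent.X170.PC
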